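import Pool.Agent.Helper84.S7.StD1
import Pool.Agent.Helper52.S7.Lists

/-!
# Project W7 (level `7^n`): lower bound, operators and words

Both plane functions have degree at most `d`; the torus classes `c` modulo `6` (class of `x^i y^j`: `i - j`) are separated by the projectors `pj c`. Observables of a solution `F` of the relations: `pj 0 F0`, `pj 2 (F0 + F1)`,
`pj 4 F1`, `pj 2 F1`. Operators: `U = T_2² - 4 T_2 + 3` lowers by `2`, `V = T_3 (T_2² + T_2 + 2)` by `4`, `V8 = T_3 (3 + 2 T_2 - T_2² - T_3²) + T_5 (T_2² + 4)` by `8` (all rows, modulo the relations); origin rows `Z = T_2² + T_2 + 2` (degree `2`) and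
`O5 = T_3 T_2 + 2 T_2² + 3 T_2 + 2 T_3 + 2` (degree `4`). All leading forms, ranks and constants were checked by machine (`/team-store/W7-h4.tgz`).
-/

set_option autoImplicit false

namespace Pool.Agent.Helper4.S7

open Pool.Agent.Helper14.CV (Homog EqC act Tl StFar StFex)
open Pool.Agent.Helper28.WK (SymP Tw evw Ok)
open Pool.Agent.Helper14.W5
open Pool.Agent.Helper76.S7
open Pool.Agent.Helper84.S7
open Pool.Agent.Helper52.S7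

/-! ### Rows of the Hecke operators -/

/-- HK2 (from HKF, TRE, TRM). The rows of `T_2`: HKF with `l = 2`, `J = {0, 1}`; model `S5Hk2`. Farey edges by the residue of the denominators modulo `7`: `γ{0,∞}`: `F0(γ)`, `γ{0,½}`: `F1(γ)`, `γ{0,1}`: `F0(γ) - F0(γT)`, `γ{½,1}`: `F0(γ) - F0(γT) - F1(γ)`
(`{v, w}` is the path from `v` to `w`, value `G(w) - G(v)`), `γ = (a b; 7c d)` of determinant one. Row 0, path `{0,∞}`: `(l 0; 0 1)`: `{0,∞}`; `j = 0`: `{0,∞}`; `j = 1`: `{½,∞} = {0,∞} - {0,½}`. Row 1, path `{0,½}`: `(l 0; 0 1)`: `{0,1}`; `j = 0`: `{0,¼}`;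
`j = 1`: `{½,¾}` (continued fractions). Multiply with the matrices `(1 0; 0 2)`, `(2 -j; 0 1)` of HKF by TRM; matrices up to sign (TRM). -/
def S7Hk2 : Prop := ∀ (r s : ℕ) (G : ℤ → ℤ → ZMod 7), SymP 7 r (s + 1) G → ∀ i : Fin 2,
  (pf7 (Tl 2 (7 ^ r) G) i : Fn7 (7 ^ r) (7 ^ s)) = ∑ f : Fin 2, opL (T2L i f) (pf7 G f)

/-- HK3 (from HKF, TRE, TRM). The rows of `T_3`, HKF with `l = 3`, `J = {0, 1, 2}` or `J = {-1, 0, 1}`; Farey edges as in HK2. -/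
def S7Hk3 : Prop := ∀ (r s : ℕ) (G : ℤ → ℤ → ZMod 7), SymP 7 r (s + 1) G → ∀ i : Fin 2,
  (pf7 (Tl 3 (7 ^ r) G) i : Fn7 (7 ^ r) (7 ^ s)) = ∑ f : Fin 2, opL (T3L i f) (pf7 G f)

/-- HK5 (from HKF, TRE, TRM). The rows of `T_5`, HKF with `l = 5`, `J = {0, 1, 2, 3, 4}` (or any other residues); Farey edges as in HK2. -/
def S7Hk5 : Prop := ∀ (r s : ℕ) (G : ℤ → ℤ → ZMod 7), SymP 7 r (s + 1) G → ∀ i : Fin 2,
  (pf7 (Tl 5 (7 ^ r) G) i : Fn7 (7 ^ r) (7 ^ s)) = ∑ f : Fin 2, opL (T5L i f) (pf7 G f)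

/-! ### The operators on symbols and the words -/

section

variable {R : Type} [AddCommGroup R]

/-- `T_2² - 4 T_2 + 3`, rows `UL`. -/
def Uo7 (m : ℤ) (G : ℤ → ℤ → R) : ℤ → ℤ → R :=
  Tl 2 m (Tl 2 m G) - (4 : ℤ) • Tl 2 m G + (3 : ℤ) • G

/-- `T_2² + T_2 + 2`, first row `ZL`. -/
def Zo7 (m : ℤ) (G : ℤ → ℤ → R) : ℤ → ℤ → R :=
  Tl 2 m (Tl 2 m G) + Tl 2 m G + (2 : ℤ) • G

/-- `T_3 (T_2² + T_2 + 2)`, rows `VL`. -/
def Vo7 (m : ℤ) (G : ℤ → ℤ → R) : ℤ → ℤ → R := Tl 3 m (Zo7 m G)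

/-- `T_3 (3 + 2 T_2 - T_2² - T_3²) + T_5 (T_2² + 4)`, rows `EL`. -/
def V8o (m : ℤ) (G : ℤ → ℤ → R) : ℤ → ℤ → R :=
  Tl 3 m ((3 : ℤ) • G + (2 : ℤ) • Tl 2 m G - Tl 2 m (Tl 2 m G) - Tl 3 m (Tl 3 m G)) +
    Tl 5 m (Tl 2 m (Tl 2 m G) + (4 : ℤ) • G)

/-- `T_3 T_2 + 2 T_2² + 3 T_2 + 2 T_3 + 2`, first row `OL`. -/
def O5o (m : ℤ) (G : ℤ → ℤ → R) : ℤ → ℤ → R :=
  Tl 3 m (Tl 2 m G) + (2 : ℤ) • Tl 2 m (Tl 2 m G) + (3 : ℤ) • Tl 2 m G + (2 : ℤ) • Tl 3 m G + (2 : ℤ) • G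

/-- The word `(c, i, j)`: `U^i V8^j`, `Z U^i V^(2j)`, `Z U^i V^(2j+1)`, `O5 U^i V8^j` for `c = 0, 1, 2, 3`. -/
def wd7 (m : ℤ) (G : ℤ → ℤ → R) (c i j : ℕ) : ℤ → ℤ → R :=
  if c = 0 then (Uo7 m)^[i] ((V8o m)^[j] G)
  else if c = 1 then Zo7 m ((Uo7 m)^[i] ((Vo7 m)^[2 * j] G))
  else if c = 2 then Zo7 m ((Uo7 m)^[i] ((Vo7 m)^[2 * j + 1] G))
  else O5o m ((Uo7 m)^[i] ((V8o m)^[j] G))

/-- The value of the symbol of `G` at the word `(c, i, j)` of `{0, ∞}`. -/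
def ev7 (m : ℤ) (G : ℤ → ℤ → R) (c i j : ℕ) : R := wd7 m G c i j 1 0 - wd7 m G c i j 0 1

end

/-! ### Numbers of the words -/

/-- The exponents `(a, b)` of the leading monomial `X^(a + i + 7j) Y^(b + i + j)` and the bound `e` (`e + i + 7j < 7^r`). -/
def aa7 (c : ℕ) : ℕ := if c = 0 then 0 else if c = 1 then 2 else if c = 2 then 5 else 3

/-- The exponent `b`. -/
def ab7 (c : ℕ) : ℕ := if c ≤ 1 then 0 else 1

/-- The bound `e`. -/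
def ae7 (c : ℕ) : ℕ := if c = 0 then 0 else if c = 1 then 2 else if c = 2 then 5 else 4

/-- The degree of the word. -/
def dg7 (c i j : ℕ) : ℕ := aa7 c + ab7 c + 2 * i + 8 * j

/-- The type of the word: the functionals `c = 1, 2` belong together. -/
def ty7 (c : ℕ) : ℕ := if c = 0 then 0 else if c ≤ 2 then 1 else 2

/-- The second coordinate of the order. -/
def rh7 (c i j : ℕ) : ℕ := i + j + (if c = 2 then 1 else 0)

/-! ### Class projectors -/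

/-- The projector to the torus class `c`: `-∑_w om_w^(5c) oW w`. -/
def pj (c : ℕ) {q q' : ℕ} : Module.End (ZMod 7) (Fn7 q q') :=
  -∑ w : Fin 6, (((om6 w) ^ (5 * c) : ℤ) : ZMod 7) • oW w

/-- PJ (from TRM, LOW0, NFA, NF, BB). Rules. `oW w * oW w' = op7 1 0 0 (om_w om_w')` (TRM) is `oW (w + w')` up to an operator which lowers by `9` (NF with `β = γ = m = 0`; `om6 w * om6 w' ≡ om6 (w + w')` modulo `49`), so `pj c * oW w ≡ om_w^c • pj c ≡ oW w * pj c`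
(the sum over `w` is reindexed; in `ZMod 7` `om_w = 5^w`, `om_w^6 = 1`). `∑_c pj c = 1`: `∑_c om_w^(5c)` is `6 = -1` for `w = 0` and `0` otherwise; `oW 0 = 1`. Idempotent, orthogonal modulo `Lw 9`: `pj c * pj c' ≡ -∑_w om_w^(5c + c') pj c'`.
`dX * oW w ≡ om_w • (oW w * dX)` modulo `Lw 2`, so `pj c * dX ≡ dX * pj (c + 1)`; in the same way `pj c * dY ≡ dY * pj (c + 5)`. `bb7 al be` has the class `al - be` modulo functions of lower degree: for `i + j = al + be`,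
`dX^i dY^j (oW w F) = om_w^(i + 5j) • dX^i dY^j F` on `F` of degree at most `i + j` (constant functions), and `dX^i dY^j (bb7 al be) = 0` for `(i, j) ≠ (al, be)`, `i + j = al + be` (BB). -/
def S7Pj : Prop := ∀ (r s : ℕ),
  (∀ c : ℕ, Lw (pj c : Module.End (ZMod 7) (Fn7 (7 ^ r) (7 ^ s))) 0) ∧
  (∑ c ∈ Finset.range 6, pj c : Module.End (ZMod 7) (Fn7 (7 ^ r) (7 ^ s))) = 1 ∧
  (∀ c : ℕ, (pj (c + 6) : Module.End (ZMod 7) (Fn7 (7 ^ r) (7 ^ s))) = pj c) ∧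
  (∀ (c : ℕ) (w : Fin 6),
    Lw (pj c * oW w - (((om6 w) ^ c : ℤ) : ZMod 7) • pj c : Module.End (ZMod 7) (Fn7 (7 ^ r) (7 ^ s))) 9 ∧
    Lw (oW w * pj c - (((om6 w) ^ c : ℤ) : ZMod 7) • pj c : Module.End (ZMod 7) (Fn7 (7 ^ r) (7 ^ s))) 9) ∧
  (∀ c c' : ℕ, c < 6 → c' < 6 → Lw (pj c * pj c' - (if c = c' then pj c else 0) :
    Module.End (ZMod 7) (Fn7 (7 ^ r) (7 ^ s))) 9) ∧
  (∀ c : ℕ, Lw (pj c * dX - dX * pj (c + 1) : Module.End (ZMod 7) (Fn7 (7 ^ r) (7 ^ s))) 2 ∧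
    Lw (pj c * dY - dY * pj (c + 5) : Module.End (ZMod 7) (Fn7 (7 ^ r) (7 ^ s))) 2) ∧
  (∀ F : Fn7 (7 ^ r) (7 ^ s), F ∈ Wd7 0 → pj 0 F = F) ∧
  (∀ c al be : ℕ, al < 7 ^ r → be < 7 ^ s →
    pj c (bb7 al be : Fn7 (7 ^ r) (7 ^ s)) - (if ((al : ℤ) - be - c) % 6 = 0 then bb7 al be else 0) ∈
      Wd7 ((al : ℤ) + be - 1))

/-- The observables `pj 0 F0`, `pj 2 (F0 + F1)`, `pj 4 F1`, `pj 2 F1`. -/
def Ob7 {q q' : ℕ} (F : Fin 2 → Fn7 q q') (o : Fin 4) : Fn7 q q' :=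
  if o = 0 then pj 0 (F 0) else if o = 1 then pj 2 (F 0 + F 1) else if o = 2 then pj 4 (F 1) else pj 2 (F 1)

/-! ### Leading forms -/

/-- The leading operator of `U` on `pj 0 F0` and on `pj 2 F1`. -/
def Qa {q q' : ℕ} : Module.End (ZMod 7) (Fn7 q q') := (3 : ZMod 7) • (dX * dY)

/-- The leading operator of `U` on `pj 2 (F0 + F1)` and on `pj 4 F1`. -/
def Qb {q q' : ℕ} : Module.End (ZMod 7) (Fn7 q q') := (4 : ZMod 7) • (dX * dY)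

/-- The leading operator of `V8` on `pj 0 F0`. -/
def La {q q' : ℕ} : Module.End (ZMod 7) (Fn7 q q') :=
  (5 : ZMod 7) • (dX ^ 7 * dY + dX ^ 4 * dY ^ 4 + dX * dY ^ 7)

/-- The leading operator of `V8` on `pj 2 F1`. -/
def Lc {q q' : ℕ} : Module.End (ZMod 7) (Fn7 q q') :=
  (2 : ZMod 7) • (dX ^ 7 * dY + dX ^ 4 * dY ^ 4 + dX * dY ^ 7)

/-- The leading operator of `V` from `pj 4 F1` to `pj 2 (F0 + F1)`. -/
def Ka {q q' : ℕ} : Module.End (ZMod 7) (Fn7 q q') := (4 : ZMod 7) • (dX ^ 3 * dY + dY ^ 4)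

/-- The leading operator of `V` from `pj 2 (F0 + F1)` to `pj 4 F1`. -/
def Kb {q q' : ℕ} : Module.End (ZMod 7) (Fn7 q q') := dX ^ 4 + dX * dY ^ 3

/-- `U` minus multiples of the relations. -/
def BU : Fin 2 → Fin 2 → List Tm := sbL UL MU

/-- `V` minus multiples of the relations. -/
def BV : Fin 2 → Fin 2 → List Tm := sbL VL MV

/-- `V8` minus multiples of the relations. -/
def B8 : Fin 2 → Fin 2 → List Tm := sbL EL M8

/-- The first row of `T_2² + T_2 + 2` minus multiples of the relations. -/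
def BZ : Fin 2 → List Tm := sbR ZL MZ

/-- The first row of `O5` minus multiples of the relations. -/
def BO : Fin 2 → List Tm := sbR OL MO

/-- The coefficient of `pj c * (oB - 1)^i * (oD - 1)^k * (oA - 1)^j` in `pj c` times the expansion of a list. -/
def cC (L : List Tm) (c i k j : ℕ) : ℤ := ∑ w : Fin 6, (om6 w) ^ c * cS L w i k j

/-- CERT1. Finite computations: the terms are good, all rows vanish below the weights `2`, `4`, `8`. -/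
def S7Cert1 : Prop :=
  (∀ i f : Fin 2, (∀ t ∈ T2L i f, Gd t) ∧ (∀ t ∈ T3L i f, Gd t) ∧ (∀ t ∈ T5L i f, Gd t) ∧ (∀ t ∈ relL i f, Gd t) ∧
    (∀ t ∈ MU i f, Gd t) ∧ (∀ t ∈ MV i f, Gd t) ∧ (∀ t ∈ M8 i f, Gd t)) ∧
  (∀ f : Fin 2, (∀ t ∈ MZ f, Gd t) ∧ (∀ t ∈ MO f, Gd t)) ∧
  (∀ i f : Fin 2, ∀ w : Fin 6, ∀ t ∈ M9, t.1 + 6 * t.2.1 + t.2.2 < 2 → (7 : ℤ) ∣ cS (BU i f) w t.1 t.2.1 t.2.2) ∧
  (∀ i f : Fin 2, ∀ w : Fin 6, ∀ t ∈ M9, t.1 + 6 * t.2.1 + t.2.2 < 4 → (7 : ℤ) ∣ cS (BV i f) w t.1 t.2.1 t.2.2)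

/-- CERT2. Finite computations: the leading forms of `U` and `V` in the classes which are used, and the values at the origin. -/
def S7Cert2 : Prop :=
  (∀ t ∈ M9, t.1 + 6 * t.2.1 + t.2.2 = 2 →
    (7 : ℤ) ∣ cC (BU 0 0) 0 t.1 t.2.1 t.2.2 - (if t = (1, 0, 1) then 3 else 0) ∧ (7 : ℤ) ∣ cC (BU 0 1) 0 t.1 t.2.1 t.2.2 ∧
    (7 : ℤ) ∣ cC (BU 0 0) 2 t.1 t.2.1 t.2.2 - (if t = (1, 0, 1) then 4 else 0) ∧
    (7 : ℤ) ∣ cC (BU 0 1) 2 t.1 t.2.1 t.2.2 - (if t = (1, 0, 1) then 1 else 0) ∧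
    (7 : ℤ) ∣ cC (BU 1 0) 2 t.1 t.2.1 t.2.2 ∧
    (7 : ℤ) ∣ cC (BU 1 1) 2 t.1 t.2.1 t.2.2 - (if t = (1, 0, 1) then 3 else 0) ∧
    (7 : ℤ) ∣ cC (BU 1 0) 4 t.1 t.2.1 t.2.2 ∧
    (7 : ℤ) ∣ cC (BU 1 1) 4 t.1 t.2.1 t.2.2 - (if t = (1, 0, 1) then 4 else 0)) ∧
  (∀ t ∈ M9, t.1 + 6 * t.2.1 + t.2.2 = 4 →
    (7 : ℤ) ∣ cC (BV 0 0) 2 t.1 t.2.1 t.2.2 ∧
    (7 : ℤ) ∣ cC (BV 0 1) 2 t.1 t.2.1 t.2.2 -
      (if t = (1, 0, 3) ∨ t = (4, 0, 0) then 4 else if t = (2, 0, 2) then 2 else 0) ∧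
    (7 : ℤ) ∣ cC (BV 1 0) 2 t.1 t.2.1 t.2.2 ∧
    (7 : ℤ) ∣ cC (BV 1 1) 2 t.1 t.2.1 t.2.2 - (if t = (2, 0, 2) then 5 else 0) ∧
    (7 : ℤ) ∣ cC (BV 1 0) 4 t.1 t.2.1 t.2.2 - (if t = (0, 0, 4) ∨ t = (3, 0, 1) then 1 else 0) ∧
    (7 : ℤ) ∣ cC (BV 1 1) 4 t.1 t.2.1 t.2.2 - (if t = (0, 0, 4) ∨ t = (3, 0, 1) then 1 else 0)) ∧
  (∀ i < 3, ∀ j < 3, i + j ≤ 2 →
    (7 : ℤ) ∣ nS (BZ 0) i j - (if i = 2 ∧ j = 0 then 6 else 0) ∧
    (7 : ℤ) ∣ nS (BZ 1) i j - (if i = 2 ∧ j = 0 then 6 else if i = 0 ∧ j = 2 then 5 else 0)) ∧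
  (∀ i < 5, ∀ j < 5, i + j ≤ 4 → (7 : ℤ) ∣ nS (BO 0) i j ∧
    (7 : ℤ) ∣ nS (BO 1) i j - (if i = 3 ∧ j = 1 then 4 else if i = 0 ∧ j = 4 then 3 else 0))

/-- CERT3. Finite computations: the rows of `V8` vanish below the weight `8`. (One pass over the list for every entry `(i, f)`; or compute in `ZMod 7`, or group the terms.) -/
def S7Cert3 : Prop := ∀ i f : Fin 2, ∀ w : Fin 6, ∀ t ∈ M9, t.1 + 6 * t.2.1 + t.2.2 < 8 →
  (7 : ℤ) ∣ cS (B8 i f) w t.1 t.2.1 t.2.2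

/-- CERT4. Finite computations: the leading forms of `V8` in the class `0` of the first row and in the class `2` of the second row. -/
def S7Cert4 : Prop := ∀ t ∈ M9, t.1 + 6 * t.2.1 + t.2.2 = 8 →
  (7 : ℤ) ∣ cC (B8 0 0) 0 t.1 t.2.1 t.2.2 -
    (if t = (1, 0, 7) ∨ t = (4, 0, 4) ∨ t = (7, 0, 1) then 5 else 0) ∧
  (7 : ℤ) ∣ cC (B8 0 1) 0 t.1 t.2.1 t.2.2 ∧
  (7 : ℤ) ∣ cC (B8 1 0) 2 t.1 t.2.1 t.2.2 ∧
  (7 : ℤ) ∣ cC (B8 1 1) 2 t.1 t.2.1 t.2.2 -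
    (if t = (1, 0, 7) ∨ t = (4, 0, 4) ∨ t = (7, 0, 1) then 2 else 0)

/-- LD (from LOW0, OPM, NFA, EXP, PJ, CERT1, CERT2, CERT3, CERT4). Leading forms, for `F0`, `F1` of degree at most `d` satisfying the relations. `Rel7 F` says `∑_f opL (relL ρ f) (F f) = 0` (OPM, also for products, multiples, sums of lists).
So modulo the relations the rows are the lists `BU`, `BV`, `B8`, and EXP with CERT gives: all terms of weight less than `2`, `4`, `8` vanish, so the rows lower by `2`, `4`, `8` (`oW w (oB-1)^i (oD-1)^k (oA-1)^j` lowers by `i + 6k + j`; `M9` contains all weights at most `8`, the rest lowers by `9`).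
`pj c` times the terms of weight exactly `n` is `∑ cC • pj c * (oB-1)^i (oD-1)^k (oA-1)^j` (PJ), `oB - 1 ≡ dY`, `oA - 1 ≡ dX` modulo operators which lower by `2` (NFA), and `pj c * dY^i * dX^j ≡ dX^j * dY^i * pj (c + j + 5i)` (PJ). For `pj 2` of the sum of the
two rows of `V`: `2 + 5 = 0` modulo `7`. -/
def S7Ld : Prop := ∀ (r s : ℕ) (d : ℤ) (F : Fin 2 → Fn7 (7 ^ r) (7 ^ s)), Rel7 F → (∀ f, F f ∈ Wd7 d) →
  (∀ F' : Fin 2 → Fn7 (7 ^ r) (7 ^ s), (∀ i, F' i = ∑ f : Fin 2, opL (UL i f) (F f)) → (∀ i, F' i ∈ Wd7 (d - 2)) ∧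
    Ob7 F' 0 - Qa (Ob7 F 0) ∈ Wd7 (d - 3) ∧ Ob7 F' 1 - Qb (Ob7 F 1) ∈ Wd7 (d - 3) ∧
    Ob7 F' 2 - Qb (Ob7 F 2) ∈ Wd7 (d - 3) ∧ Ob7 F' 3 - Qa (Ob7 F 3) ∈ Wd7 (d - 3)) ∧
  (∀ F' : Fin 2 → Fn7 (7 ^ r) (7 ^ s), (∀ i, F' i = ∑ f : Fin 2, opL (VL i f) (F f)) → (∀ i, F' i ∈ Wd7 (d - 4)) ∧
    Ob7 F' 1 - Ka (Ob7 F 2) ∈ Wd7 (d - 5) ∧ Ob7 F' 2 - Kb (Ob7 F 1) ∈ Wd7 (d - 5)) ∧
  (∀ F' : Fin 2 → Fn7 (7 ^ r) (7 ^ s), (∀ i, F' i = ∑ f : Fin 2, opL (EL i f) (F f)) → (∀ i, F' i ∈ Wd7 (d - 8)) ∧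
    Ob7 F' 0 - La (Ob7 F 0) ∈ Wd7 (d - 9) ∧ Ob7 F' 3 - Lc (Ob7 F 3) ∈ Wd7 (d - 9))

/-- OM (from LOW0, OPM, VAL, PJ, CERT1, CERT2). The values at the origin (VAL). As in LD, `∑_f opL (ZL f) (F f) = ∑_f opL (BZ f) (F f)`; the value at the origin is (VAL) by CERT `6 dX² (F0 + F1) + 5 dY² F1` for degrees at most `2`, and for `O5`
`4 dX³ dY F1 - 4 dY⁴ F1` for degrees at most `4`; these are constants (degree `0`), equal to `pj 0` of themselves, and `pj 0 * dX² ≡ dX² * pj 2`, `pj 0 * dY² ≡ dY² * pj 4`, `pj 0 * dX³ * dY ≡ dX³ * dY * pj 2`, `pj 0 * dY⁴ ≡ dY⁴ * pj 2` (`pj 10 = pj 4`, `pj 8 = pj 2`,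
`pj 20 = pj 2`) modulo operators which lower by one more (zero on these functions). -/
def S7Om : Prop := ∀ (r s : ℕ) (F : Fin 2 → Fn7 (7 ^ r) (7 ^ s)), Rel7 F →
  ((∀ f, F f ∈ Wd7 2) → (∑ f : Fin 2, opL (ZL f) (F f)) 0 0 =
    ((6 : ZMod 7) • dX ^ 2 : Module.End (ZMod 7) (Fn7 (7 ^ r) (7 ^ s))) (Ob7 F 1) 0 0 +
      ((5 : ZMod 7) • dY ^ 2 : Module.End (ZMod 7) (Fn7 (7 ^ r) (7 ^ s))) (Ob7 F 2) 0 0) ∧
  ((∀ f, F f ∈ Wd7 4) → (∑ f : Fin 2, opL (OL f) (F f)) 0 0 =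
    ((4 : ZMod 7) • (dX ^ 3 * dY - dY ^ 4) : Module.End (ZMod 7) (Fn7 (7 ^ r) (7 ^ s))) (Ob7 F 3) 0 0)

/-- SUR (from TRM, LOW0, NFA, LW1, PJ, BB). Solving the inhomogeneous relation below the top degree (`α = op7 2 (-1) 1 (-3)`, `β = op7 5 (-3) 1 (-4)`). Proof by induction (downwards until `Wd7 (-1) = 0`): it is enough to solve up to an error in `Wd7 (e - 1)`. `E = ∑_c pj c E`. Classes `c` with
`3 ∤ c`: `α ≡ oW 4` modulo `Lw 1`, `oW 4 * pj c ≡ 2^c • pj c`, `2^c ≠ 1`: take `f = b = 0`, `a = -(1 - 2^c)⁻¹ pj c E` (of degree `e`). Classes `c = 0, 3`: by BB `E = dX P + dY Q` with `P, Q ∈ Wd7 (e+1)` (`E` is a combination of `bb7 i j`, `i + j ≤ e`, and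
`bb7 i j = dX (bb7 (i+1) j)` or `dY (bb7 i (j+1))`, as `e < 7^r + 7^s - 2`), so `pj c E ≡ dX P' + dY Q'`, `P' = pj (c+1) P`, `Q' = pj (c+5) Q`; take `f = -P'`, `a = 2 Q'`, `b = -2 Q'`: `f - T f ≡ dX P'` (`oA = op7 1 1 0 1`), `-(a - α a) - (b - β b) = 2 (α - β) Q' ≡ 2 oW 4 (-2 dX - 3 dY) Q'`
and `oW 4` is `1` on the class `c` of `dY Q'` (`2^3 = 1`), `-6 = 1`; the remaining term `-4 oW 4 dX Q'` has the class `c + 4 = c - 2`, which is not divisible by `3`, and is solved as before. -/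
def S7Sur : Prop := ∀ (r s : ℕ) (e : ℤ) (E : Fn7 (7 ^ r) (7 ^ s)), e < 7 ^ r + 7 ^ s - 2 → E ∈ Wd7 e →
  ∃ f a b : Fn7 (7 ^ r) (7 ^ s), f ∈ Wd7 (e + 1) ∧ a ∈ Wd7 (e + 1) ∧ b ∈ Wd7 (e + 1) ∧
    f - op7 1 1 0 1 f - (a - op7 2 (-1) 1 (-3) a) - (b - op7 5 (-3) 1 (-4) b) = E

/-- LED (from TRM, LOW0, NFA, LW1, PJ, BB, SUR). Solutions of the relations with given leading form, `d = dg7 c i j`. If `f - T f - (a - α a) - (b - β b) = 0` then `F0 = f`, `F1 = a - α a` satisfy `Rel7` (`(1 + α + α²)(1 - α) = 1 - α³ = 0`, `α³ = 1`: TRM; `k = F0 - T F0 - F1 = b - β b`).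
Put `(al, be) = (ae7 c + i + 7j, ab7 c + i + j)` and (leading parts) `c = 0`: `f = bb7 al be`, `a = b = 0`; `c = 1`: the same; `c = 2`: `f = 2 bb7 al be`, `a = -bb7 al be`, `b = -a`; `c = 3`: `f = bb7 al (be - 1) - bb7 (al - 1) be`,
`a = 2 bb7 (al - 1) be`, `b = -a`. (Classes `al - be`: `0`, `2`, `4`, `3`; so the class of `bb7 (al-1) be` is `2` and of `bb7 al (be-1)` is `4` for `c = 3`; `a - α a ≡ (1 - 2^class) a`, that is `F1 ≡ bb7 al be` for `c = 2` and `F1 ≡ bb7 (al - 1) be` for `c = 3`.) The defect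
`f - T f - (a - α a) - (b - β b) ≡ -dX f + (α - β) a ≡ -dX f - oW 4 (2 dX + 3 dY) a` has degree at most `d - 1` and leading part without the classes `0` and `3`: for `c = 0, 1` it is `-dX f` of class `5`, `1`; for `c = 2`
the classes are `3` (`dX`): `-2 + 2 = 0` times `dX (bb7 al be)`, and `5`; for `c = 3`: class `3`: `-dX (bb7 al (be-1)) - 3 · 2 dY (bb7 (al-1) be) = (-1 + 1) bb7 (al-1) (be-1)`, the other terms have class `1`. So it is solved (as in the first step of SUR) by `a` of degree `d - 1` up to `Wd7 (d-2)`,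
and `d - 2 < 7^r + 7^s - 2`: SUR with functions of degree at most `d - 1`. The observables follow from the classes of `bb7` (PJ): for `c = 3` `pj 2 (F0 + F1) ≡ -bb7 (al-1) be + bb7 (al-1) be = 0`, `pj 4 F1 ≡ 0`, `pj 2 F1 ≡ bb7 (al-1) be`. -/
def S7Led : Prop := ∀ (r s c i j : ℕ), c ≤ 3 → ae7 c + i + 7 * j < 7 ^ r → ab7 c + i + j < 7 ^ s →
  ∃ F : Fin 2 → Fn7 (7 ^ r) (7 ^ s), Rel7 F ∧ (∀ f, F f ∈ Wd7 (dg7 c i j : ℤ)) ∧
    ∀ o : Fin 4, Ob7 F o - (if o.val = c then bb7 (aa7 c + i + 7 * j) (ab7 c + i + j) else 0) ∈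
      Wd7 ((dg7 c i j : ℤ) - 1)

/-- The operator which gives the value of the word `(c, i, j)` on the observable `o`. -/
def PP7 (c i j : ℕ) (o : Fin 4) {q q' : ℕ} : Module.End (ZMod 7) (Fn7 q q') :=
  if c = 0 then (if o = 0 then Qa ^ i * La ^ j else 0)
  else if c = 1 then (if o = 1 then (6 : ZMod 7) • (dX ^ 2 * (Qb ^ i * (Ka * Kb) ^ j))
    else if o = 2 then (5 : ZMod 7) • (dY ^ 2 * (Qb ^ i * (Ka * Kb) ^ j)) else 0)
  else if c = 2 then (if o = 1 then (5 : ZMod 7) • (dY ^ 2 * (Qb ^ i * (Ka * Kb) ^ j) * Kb)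
    else if o = 2 then (6 : ZMod 7) • (dX ^ 2 * (Qb ^ i * (Ka * Kb) ^ j) * Ka) else 0)
  else (if o = 3 then (4 : ZMod 7) • ((dX ^ 3 * dY - dY ^ 4) * (Qa ^ i * Lc ^ j)) else 0)

/-- ITR (from REL, HKB, HK2, HK3, HK5, LOW0, LD, OM). Iteration, `m = 7^r`, for a symbol `G` modulo 7 of level `(r, s+1)` whose functions have degree at most `d`. `T_l` preserves symbols (HKB), so `Uo7 m G`, `Vo7 m G`, `V8o m G` are symbols (`SymP.add` etc.), with the functions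
`∑_f opL (UL i f) F_f(G)`, ... (HK2, HK3, HK5 several times; `opL (mmL ..)`), and REL, LD apply with `d - 2`, `d - 4`, `d - 8`; all operators `dX`, `dY` commute. `V` exchanges the observables `1` and `2` up to `Ka`, `Kb`. `ev7 m G c i j` is the value at `(0,0)` of `F0` of the word
(the standard matrix of `(0,0)` is `1`); for `c = 1, 2` use OM for the degree `d' = d - (dg7 c i j - 2) ≤ 2`, for `c = 3` use OM for `d' ≤ 4`; for `c = 0` and `d' = 0` the function `F0` is constant and `pj 0 F0 = F0` (PJ). If `d < dg7 c i j` the functions are `0` or the values are zero because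
`dX²`, `dY²` kill degree `1` and the operators of `O5` kill degree `3`. -/
def S7Itr : Prop := ∀ (r s : ℕ) (G : ℤ → ℤ → ZMod 7) (d : ℕ), SymP 7 r (s + 1) G →
  (∀ f, (pf7 G f : Fn7 (7 ^ r) (7 ^ s)) ∈ Wd7 (d : ℤ)) → ∀ c i j : ℕ, c ≤ 3 →
  (d < dg7 c i j → ev7 (7 ^ r) G c i j = 0) ∧
  (dg7 c i j = d → ev7 (7 ^ r) G c i j =
    ∑ o : Fin 4, (PP7 c i j o (Ob7 (fun f => (pf7 G f : Fn7 (7 ^ r) (7 ^ s))) o)) 0 0)

/-- TRI (from LOW0, BB, LED, EX, ITR). Triangular system of symbols modulo 7. For `(c, i, j)`, `c ≤ 3`, take LED and the symbol `G` of EX. By ITR `ev7 G c' i' j' = 0` if `D' = dg7 c' i' j' > D = dg7 c i j`; for `D' = D` it is the value at the origin of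
`PP7 c' i' j' c (bb7 (aa7 c + i + 7j) (ab7 c + i + j))` (terms of lower degree are killed): the coefficient of `X^(aa7 c + i + 7j) Y^(ab7 c + i + j)` in a form, which is zero if the types differ. The forms: `c' = 0`: `(3XY)^i' La^j'`, `c' = 3`: `4 (X³Y - Y⁴)(3XY)^i' Lc^j'`, `Ka Kb = 4 XY (X³ + Y³)²`; on the
observables `1`, `2` the forms are for `c' = 1`: `6 X² P`, `5 Y² P`, for `c' = 2`: `5 X Y² (X³ + Y³) P`, `3 X² Y (X³ + Y³) P`, `P = (4XY)^i' (4XY (X³ + Y³)²)^j'`. The smallest exponent of `Y` in these forms is `i' + j'` for `c' = 0` and for `c' = 1` on the observable `1`, `i' + j' + 2` for `c' = 1` on the observable `2` and `c' = 2` on the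
observable `1`, `i' + j' + 1` for `c' = 2` on the observable `2` and for `c' = 3`; so the coefficient is zero if `rh7 c' i' j' > rh7 c i j`, and nonzero for `(c', i', j') = (c, i, j)` (the coefficient of `X⁷Y` in `La`, `Lc` is not zero). -/
def S7Tri : Prop := ∀ (r s c i j : ℕ), c ≤ 3 → ae7 c + i + 7 * j < 7 ^ r → ab7 c + i + j < 7 ^ s →
  ∃ G : ℤ → ℤ → ZMod 7, SymP 7 r (s + 1) G ∧ ev7 (7 ^ r) G c i j ≠ 0 ∧
    ∀ c' i' j' : ℕ, c' ≤ 3 → ev7 (7 ^ r) G c' i' j' ≠ 0 →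
      (dg7 c' i' j' < dg7 c i j ∨
        (dg7 c' i' j' = dg7 c i j ∧ ty7 c' = ty7 c ∧ rh7 c' i' j' ≤ rh7 c i j))

/-- LIE (from LIF). `ev7` commutes with reduction and does not change for `EqC`. -/
def S7Lie : Prop := ∀ (r s : ℕ) (g : ℤ → ℤ → ZMod 7), SymP 7 r (s + 1) g →
  ∃ G : ℤ → ℤ → ℤ, SymP 7 r (s + 1) G ∧
    ∀ c i j : ℕ, ((ev7 (7 ^ r) G c i j : ℤ) : ZMod 7) = ev7 (7 ^ r) g c i j

/-- UBE (from UNB). Back to `Γ₀(7^n)` and to complex values, for `ev7` (integer combinations of words of `T_2, T_3, T_5`; `Tl l 1` commutes with the transport). -/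
def S7Ube : Prop := ∀ (r s : ℕ) (G : ℤ → ℤ → ℤ), SymP 7 r s G →
  SymP 7 0 (r + s) (fun p q => ((G (7 ^ r * p) q : ℤ) : ℂ)) ∧
    ∀ c i j : ℕ, ev7 1 (fun p q => ((G (7 ^ r * p) q : ℤ) : ℂ)) c i j = ((ev7 (7 ^ r) G c i j : ℤ) : ℂ)

/-- CNT. Counting the index sets: `DD7 (2k) = 2 t²`, `DD7 (2k+1) = 14 t² + 3 t` with `t = 7^(k-1)` (`k ≥ 1`; induction, `DD7 2 = 2`, `DD7 3 = 17`). First set (`ab7 c + i + j < t`): the first condition follows from the second; `t(t+1)/2` for `c = 0, 1` and `t(t-1)/2` for `c = 2, 3`. Second set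
(`i + 7j < 7t - e`): the second condition follows from the first; `∑_{j<t} (7t - 7j - e) = 7t(t+1)/2 - e t` for `e = 0, 2, 5, 4` (each term is at least `7 - 5`). -/
def S7Cnt : Prop :=
  (∀ k : ℕ, 1 ≤ k → ((Finset.range 4 ×ˢ Finset.range (7 ^ k) ×ˢ Finset.range (7 ^ k)).filter
    fun t : ℕ × ℕ × ℕ => ae7 t.1 + t.2.1 + 7 * t.2.2 < 7 ^ k ∧ ab7 t.1 + t.2.1 + t.2.2 < 7 ^ (k - 1)).card = DD7 (2 * k)) ∧
  (∀ k : ℕ, 1 ≤ k → ((Finset.range 4 ×ˢ Finset.range (7 ^ k) ×ˢ Finset.range (7 ^ k)).filter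
    fun t : ℕ × ℕ × ℕ => ae7 t.1 + t.2.1 + 7 * t.2.2 < 7 ^ k ∧ ab7 t.1 + t.2.1 + t.2.2 < 7 ^ k).card = DD7 (2 * k + 1))

/-- LB from TRI, LIE, UBE, CNT. For `n = 2k` use `(r,s) = (k,k-1)`, for `n = 2k+1` use `(r,s) = (k,k)` (`k ≥ 1`): level `(r, s+1)`. The matrix `M (κ, κ') = ev7 G_κ κ'` (`κ`, `κ'` in the index set of CNT) is integral, and modulo 7 its rows are linearly independent: in a relation
`∑ x_κ M(κ,·) = 0` take `κ0` maximal with `x_{κ0} ≠ 0` for the lexicographic order (`dg7`, then `rh7`): a `κ` with `x_κ ≠ 0` and `M(κ, κ0) ≠ 0` has the same `dg7`, type and `rh7` as `κ0`, so `κ = κ0` (`dg7 - 2 rh7` is `6j` for `c = 0`, `2 + 6j` for `c = 1`, `4 + 6j` for `c = 2`, `4 + 6j` for `c = 3`);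
the column `κ0` gives `x_{κ0} = 0`. So its determinant is prime to `7`, nonzero in `ℂ`. If a combination `H` of the `G_κ` (complex, level `(0, n)`) is killed by all words (`evLP 7 H = 0`, that is `evw 1 ls H = 0` for `Ok 7 ls`) then `ev7 1 H c i j = 0`: the set of all `K` with `evw 1 ls K = 0`
for all words is stable under `Tl l 1`, `l = 2, 3, 5`, sums and integer multiples. So the vectors `evLP 7 (G_κ)` are independent. Model: `S5LBof`. -/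
def S7LBof : Prop := S7Tri → S7Lie → S7Ube → S7Cnt → S7LB

end Pool.Agent.Helper4.S7
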