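import Pool.Agent.Helper4.S7.StD2

/-!
# Project W7 (level `7^n`): lower bound, intermediate statements

`LDG` (general form of LD for one list), `STA` (the classes which are not divisible by three, used in SUR and LED), `STP` (the operators on symbols and their rows), `TRF` (values of the leading forms), and the short derivations of LD, ITR, TRI from them.
-/

set_option autoImplicit false

namespace Pool.Agent.Helper4.S7

open Pool.Agent.Helper14.CV (Homog EqC act Tl StFar StFex)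
open Pool.Agent.Helper28.WK (SymP Tw evw Ok)
open Pool.Agent.Helper14.W5
open Pool.Agent.Helper76.S7
open Pool.Agent.Helper84.S7
open Pool.Agent.Helper52.S7

/-- LDG (from LOW0, NFA, EXP, PJ). One list `L` whose coefficients of weight less than `n ≤ 8` vanish modulo 7. By EXP `opL L` is the sum of the `cS L w i k j • oW w * (oB-1)^i * (oD-1)^k * (oA-1)^j` over `M9` modulo `Lw 9`; such a term lowers by `i + 6k + j` (NFA), so `opL L` lowers by `n`. `pj c` times the terms of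
weight `n` is `∑_t cC L c t • pj c * (oB-1)^i (oD-1)^k (oA-1)^j` modulo `Lw 9` (PJ: `pj c * oW w ≡ om_w^c • pj c`); if the coefficients with `k ≠ 0` vanish, only `i + j = n` remain, and `oB - 1 ≡ dY`, `oA - 1 ≡ dX` modulo `Lw 5`,
`pj c * dY ≡ dY * pj (c + 5)`, `pj c * dX ≡ dX * pj (c + 1)` modulo `Lw 2`. -/
def S7Ldg : Prop := ∀ (r s : ℕ) (L : List Tm) (n c : ℕ), n ≤ 8 → (∀ t ∈ L, Gd t) →
  (∀ w : Fin 6, ∀ t ∈ M9, t.1 + 6 * t.2.1 + t.2.2 < n → (7 : ℤ) ∣ cS L w t.1 t.2.1 t.2.2) →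
  Lw (opL L : Module.End (ZMod 7) (Fn7 (7 ^ r) (7 ^ s))) n ∧
  ((∀ t ∈ M9, t.1 + 6 * t.2.1 + t.2.2 = n → t.2.1 ≠ 0 → (7 : ℤ) ∣ cC L c t.1 t.2.1 t.2.2) →
    Lw ((pj c * opL L : Module.End (ZMod 7) (Fn7 (7 ^ r) (7 ^ s))) - ∑ i ∈ Finset.range (n + 1),
      ((cC L c i 0 (n - i) : ℤ) : ZMod 7) •
        (dX ^ (n - i) * dY ^ i * pj (c + (n - i) + 5 * i) : Module.End (ZMod 7) (Fn7 (7 ^ r) (7 ^ s)))) ((n : ℤ) + 1))

/-- STA (from LOW0, NFA, LW1, PJ; `α = op7 2 (-1) 1 (-3)`). A function `E` of degree at most `e` whose classes `0` and `3` have smaller degree is `-(a - α a)` up to lower degree: `E = ∑_c pj c E`, `α ≡ oW 4` modulo `Lw 1` (LW1: `7 ∣ -3 + 19 · 2`), `oW 4 * pj c ≡ 2^c • pj c` (`om6 4 = -19 ≡ 2`),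
`a = -∑_{c = 1, 2, 4, 5} (1 - 2^c)⁻¹ pj c E`. -/
def S7Sta : Prop := ∀ (r s : ℕ) (e : ℤ) (E : Fn7 (7 ^ r) (7 ^ s)), E ∈ Wd7 e → pj 0 E ∈ Wd7 (e - 1) → pj 3 E ∈ Wd7 (e - 1) →
  ∃ a : Fn7 (7 ^ r) (7 ^ s), a ∈ Wd7 e ∧ E + (a - op7 2 (-1) 1 (-3) a) ∈ Wd7 (e - 1)

/-- STP (from HKB, HK2, HK3, HK5, OPM, PLA; `Homog`, `SymP.add` etc.). The operators preserve symbols, and their plane functions are given by the lists (`opL (mmL ..)`: products of rows, OPM). The value of `F0` at the point `(0,0)`: the standard matrix is `1`. -/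
def S7Stp : Prop := ∀ (r s : ℕ) (G : ℤ → ℤ → ZMod 7), SymP 7 r (s + 1) G →
  (SymP 7 r (s + 1) (Uo7 (7 ^ r) G) ∧ ∀ i : Fin 2,
    (pf7 (Uo7 (7 ^ r) G) i : Fn7 (7 ^ r) (7 ^ s)) = ∑ f : Fin 2, opL (UL i f) (pf7 G f)) ∧
  (SymP 7 r (s + 1) (Vo7 (7 ^ r) G) ∧ ∀ i : Fin 2,
    (pf7 (Vo7 (7 ^ r) G) i : Fn7 (7 ^ r) (7 ^ s)) = ∑ f : Fin 2, opL (VL i f) (pf7 G f)) ∧
  (SymP 7 r (s + 1) (V8o (7 ^ r) G) ∧ ∀ i : Fin 2,
    (pf7 (V8o (7 ^ r) G) i : Fn7 (7 ^ r) (7 ^ s)) = ∑ f : Fin 2, opL (EL i f) (pf7 G f)) ∧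
  (pf7 (Zo7 (7 ^ r) G) 0 : Fn7 (7 ^ r) (7 ^ s)) = ∑ f : Fin 2, opL (ZL f) (pf7 G f) ∧
  (pf7 (O5o (7 ^ r) G) 0 : Fn7 (7 ^ r) (7 ^ s)) = ∑ f : Fin 2, opL (OL f) (pf7 G f) ∧
  ∀ H : ℤ → ℤ → ZMod 7, (pf7 H 0 : Fn7 (7 ^ r) (7 ^ s)) 0 0 = H 1 0 - H 0 1

/-- TRF (from LOW0, BB). The forms. `PP7 c i j o` is a form of degree `dg7 c i j` in the commuting operators `dX`, `dY`, so it lowers by `dg7 c i j`, and the value of a monomial `dX^p dY^q`, `p + q = A + B`, on `bb7 A B` at the origin is `1` if `(p, q) = (A, B)` and `0` otherwise: the value of a form is its coefficient of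
`X^A Y^B`. Let `(A, B) = (aa7 c + i + 7j, ab7 c + i + j)` and `dg7 c' i' j' = dg7 c i j`. The coefficient in `PP7 c' i' j' c` is zero if the types of `c`, `c'` are different (definition), and if `rh7 c' i' j' > rh7 c i j`: all monomials of the form are divisible by `Y^m`, with `m = i' + j'` for `c' = 0` and for
`c' = 1`, `o = 1`; `m = i' + j' + 2` for `c' = 1`, `o = 2` and for `c' = 2`, `o = 1`; `m = i' + j' + 1` for `c' = 2`, `o = 2` and `c' = 3`; in all cases `m > B`. For `(c', i', j') = (c, i, j)` it is the lowest coefficient in `Y`, a product of nonzero constants. (`Ka Kb = 4 XY (X³ + Y³)²`.) It may help to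
work with polynomials `MvPolynomial` or with the statement: if `P` is a sum of products of forms then ...; or by induction on `i'`, `j'` in the form: `P = c0 X^a Y^m + Y^(m+1) P1` as operators. -/
def S7Trf : Prop := ∀ (r s : ℕ),
  (∀ (c i j : ℕ) (o : Fin 4), c ≤ 3 → Lw (PP7 c i j o : Module.End (ZMod 7) (Fn7 (7 ^ r) (7 ^ s))) (dg7 c i j)) ∧
  (∀ (c i j : ℕ) (o : Fin 4), o.val = c → aa7 c + i + 7 * j < 7 ^ r → ab7 c + i + j < 7 ^ s →
    ((PP7 c i j o : Module.End (ZMod 7) (Fn7 (7 ^ r) (7 ^ s))) (bb7 (aa7 c + i + 7 * j) (ab7 c + i + j))) 0 0 ≠ 0) ∧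
  (∀ (c i j c' i' j' : ℕ) (o : Fin 4), o.val = c → c' ≤ 3 → aa7 c + i + 7 * j < 7 ^ r → ab7 c + i + j < 7 ^ s →
    dg7 c' i' j' = dg7 c i j →
    ((PP7 c' i' j' o : Module.End (ZMod 7) (Fn7 (7 ^ r) (7 ^ s))) (bb7 (aa7 c + i + 7 * j) (ab7 c + i + j))) 0 0 ≠ 0 →
    ty7 c' = ty7 c ∧ rh7 c' i' j' ≤ rh7 c i j)

end Pool.Agent.Helper4.S7
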