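import Pool.Agent.Helper84.S7.D1
import Pool.Agent.Helper4.S7.StD3
import Pool.Agent.Helper10.S7.M_Pj
import Pool.Agent.Helper38.S7.M_Hk2
import Pool.Agent.Helper22.S7.M_Hk3
import Pool.Agent.Helper27.S7.M_Hk5
import Pool.Agent.Helper33.S7.M_Stp
import Pool.Agent.Helper34.S7.M_Trf
import Pool.Agent.Helper36.S7.M_Cnt
import Pool.Agent.Helper36.S7.M_Led
import Pool.Agent.Helper43.S7.M_Om
import Pool.Agent.Helper66.S7.M_Sta
import Pool.Agent.Helper67.S7.M_Cert12
import Pool.Agent.Helper25.S7.M_Cert3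
import Pool.Agent.Helper7.S7.M_Ldg
import Pool.Agent.Helper8.S7.M_Tri
import Pool.Agent.Helper88.S7.M_Sur
import Pool.Agent.Helper99.S7.M_Ube

/-!
# Project W7: the statements of `StD2` and `StD3` without hypotheses (as far as they do not depend on LD, ITR, LIE)
-/

set_option autoImplicit false

namespace Pool.Agent.Helper4.S7

open Pool.Agent.Helper84.S7 Pool.Agent.Helper76.S7

theorem hk2 : S7Hk2 := Pool.Agent.Helper38.S7.hHk2 hkF tre trm

theorem hk3 : S7Hk3 := Pool.Agent.Helper22.S7.hHk3 hkF tre trm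

theorem hk5 : S7Hk5 := Pool.Agent.Helper27.S7.hHk5 hkF tre trm

theorem pjj : S7Pj := Pool.Agent.Helper10.S7.hPj trm low0 nfa nf bb

theorem cert1 : S7Cert1 := Pool.Agent.Helper67.S7.hCert12.1

theorem cert2 : S7Cert2 := Pool.Agent.Helper67.S7.hCert12.2

theorem cert3 : S7Cert3 := Pool.Agent.Helper25.S7.hCert3

theorem om7 : S7Om := Pool.Agent.Helper43.S7.hOm low0 opm val7 pjj cert1 cert2

theorem ldg : S7Ldg := Pool.Agent.Helper7.S7.hLdg low0 nfa exp7 pjj

theorem sta : S7Sta := Pool.Agent.Helper66.S7.hSta low0 nfa lw1 pjj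

theorem sur : S7Sur := Pool.Agent.Helper88.S7.hSur trm low0 nfa lw1 pjj bb sta

theorem led : S7Led := Pool.Agent.Helper36.S7.hLed trm low0 nfa lw1 pjj bb sta sur

theorem stp : S7Stp := Pool.Agent.Helper33.S7.hStp hkB hk2 hk3 hk5 opm plA

theorem trf : S7Trf := Pool.Agent.Helper34.S7.hTrf low0 bb

theorem cnt : S7Cnt := Pool.Agent.Helper36.S7.hCnt

theorem ube : S7Ube := Pool.Agent.Helper99.S7.hUbe unb

theorem triOf (itr : S7Itr) : S7Tri := Pool.Agent.Helper8.S7.hTri low0 trf led ex itr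

end Pool.Agent.Helper4.S7
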