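import Pool.Agent.Helper4.S7.D2
import Pool.Agent.Helper60.S7.M_Cert4
import Pool.Agent.Helper86.S7.M_Ld
import Pool.Agent.Helper89.S7.M_Lie
import Pool.Agent.Helper55.S7.M_Itr
import Pool.Agent.Helper53.S7.M_LBof
import Pool.Agent.Helper76.S7.Ub

/-!
# Project W7: the lower bound and the core for `p = 7`
-/

set_option autoImplicit false

namespace Pool.Agent.Helper4.S7

open Pool.Agent.Helper84.S7 Pool.Agent.Helper76.S7

theorem cert4 : S7Cert4 := Pool.Agent.Helper60.S7.hCert4

theorem ld : S7Ld := Pool.Agent.Helper86.S7.hLd low0 opm pjj ldg cert1 cert2 cert3 cert4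

theorem itr : S7Itr := Pool.Agent.Helper55.S7.hItr rel stp low0 pjj ld om7

theorem tri : S7Tri := triOf itr

theorem lie : S7Lie := Pool.Agent.Helper89.S7.hLie lif

theorem lb : S7LB := Pool.Agent.Helper53.S7.hLBof tri lie ube cnt

theorem core7 : S7Core := coreOfLB lb

end Pool.Agent.Helper4.S7
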