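import Pool.Agent.Helper76.S7.StC

/-!
# Project W7 (level `7^n`): lists of terms

A matrix `(a b; 7c d)` with `a`, `d` prime to `7` is written `(a, b, c, d)`. `T = (1 1; 0 1)`, `ρ1 = (2 -1; 7 -3)` (order three, `0 ↦ 1/3 ↦ 1/2 ↦ 0`), `ρ2 = (5 -3; 7 -4)` (order three,
`1/2 ↦ 1 ↦ 2/3 ↦ 1/2`). `F0(g) = G(g∞) - G(g0)`, `F1(g) = G(g½) - G(g0)`, `k = F0 - F0∘T - F1` (path from `1/2` to `1`).
-/

set_option autoImplicit false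

namespace Pool.Agent.Helper4.S7

/-- A term `(k, a, b, c, d)` stands for `k` times the operator of `(a b; 7c d)`. -/
abbrev Tm : Type := ℤ × ℤ × ℤ × ℤ × ℤ

/-- Product of two terms. -/
def mulT (t t' : Tm) : Tm :=
  (t.1 * t'.1, t.2.1 * t'.2.1 + 7 * t.2.2.1 * t'.2.2.2.1, t.2.1 * t'.2.2.1 + t.2.2.1 * t'.2.2.2.2,
    t.2.2.2.1 * t'.2.1 + t.2.2.2.2 * t'.2.2.2.1, 7 * t.2.2.2.1 * t'.2.2.1 + t.2.2.2.2 * t'.2.2.2.2)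

/-- Product of two lists. -/
def mulL (L L' : List Tm) : List Tm := L.flatMap fun t => L'.map fun t' => mulT t t'

/-- The list multiplied by an integer. -/
def sclL (n : ℤ) (L : List Tm) : List Tm := L.map fun t => (n * t.1, t.2)

/-- The term has `a`, `d` prime to `7`. -/
abbrev Gd (t : Tm) : Prop := t.2.1 % 7 ≠ 0 ∧ t.2.2.2.2 % 7 ≠ 0

/-- Product of two matrices of lists. -/
def mmL (A B : Fin 2 → Fin 2 → List Tm) (i f : Fin 2) : List Tm :=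
  mulL (A i 0) (B 0 f) ++ mulL (A i 1) (B 1 f)

/-- `c` times the identity matrix. -/
def idL (c : ℤ) (i f : Fin 2) : List Tm := if i = f then [(c, 1, 0, 0, 1)] else []

/-- `n` times a matrix of lists. -/
def smL (n : ℤ) (A : Fin 2 → Fin 2 → List Tm) (i f : Fin 2) : List Tm := sclL n (A i f)

/-- Sum of two matrices of lists. -/
def adL (A B : Fin 2 → Fin 2 → List Tm) (i f : Fin 2) : List Tm := A i f ++ B i f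

/-- The two relations as rows of two lists: `relL ρ f`. -/
def relL : Fin 2 → Fin 2 → List Tm
  | 0, 0 => []
  | 0, 1 => [(1, 1, 0, 0, 1), (1, 2, -1, 1, -3), (1, 3, -1, 1, -2)]
  | 1, 0 => [(1, 1, 0, 0, 1), (-1, 1, 1, 0, 1), (1, 4, -3, 1, -5), (-1, 4, 1, 1, 2), (1, 5, -3, 1, -4), (-1, 5, 2, 1, 3)]
  | 1, 1 => [(-1, 1, 0, 0, 1), (-1, 4, -3, 1, -5), (-1, 5, -3, 1, -4)]

/-- The rows of `T_2`: `F_i(T_2 G) = ∑_f (T2L i f) F_f(G)`. -/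
def T2L : Fin 2 → Fin 2 → List Tm
  | 0, 0 => [(1, 1, 0, 0, 2), (1, 2, -1, 0, 1), (1, 2, 0, 0, 1)]
  | 0, 1 => [(-1, 2, -1, 0, 1)]
  | 1, 0 => [(1, 1, 0, 0, 2), (-1, 1, 1, 0, 2), (1, 2, -1, 0, 1), (-1, 2, 1, 0, 1), (1, 4, -2, 1, -3), (-1, 4, 2, 1, 4)]
  | 1, 1 => [(-1, 2, -1, 0, 1), (-1, 3, -2, 1, -4), (-1, 4, -2, 1, -3)]

/-- The rows of `T_3`. -/
def T3L : Fin 2 → Fin 2 → List Tm
  | 0, 0 => [(-1, 1, -1, 1, -4), (1, 1, 0, 0, 3), (1, 1, 0, 1, 3), (1, 3, -1, 0, 1), (1, 3, 0, 0, 1), (1, 3, 1, 0, 1)]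
  | 0, 1 => [(1, 1, -1, 1, -4), (1, 1, 0, -1, 3)]
  | 1, 0 => [(-1, 1, -1, 1, -4), (1, 1, 0, 0, 3), (1, 1, 0, 1, 3), (-1, 1, 1, 0, 3), (-1, 3, -3, 1, -6), (1, 3, 0, 1, 1), (1, 4, -1, 1, -1), (-1, 4, 3, 1, 6)]
  | 1, 1 => [(1, 1, -1, 1, -4), (1, 1, 0, -1, 3), (1, 1, 1, 0, 3), (1, 3, -1, 0, 1)]

/-- The rows of `T_5`. -/
def T5L : Fin 2 → Fin 2 → List Tm
  | 0, 0 => [(-1, 1, -1, 1, -2), (1, 1, 0, -1, 5), (1, 1, 0, 0, 5), (1, 1, 0, 1, 5), (-1, 1, 1, -1, -2), (1, 2, -1, -1, 6), (-1, 2, 1, -1, -1), (1, 5, -3, 0, 1), (1, 5, -2, 0, 1), (1, 5, -1, 0, 1), (1, 5, 0, 0, 1), (1, 5, 1, 0, 1)]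
  | 0, 1 => [(-1, 2, -1, -1, 6), (-1, 2, -1, 1, -1), (-1, 5, -3, 0, 1), (-1, 5, -2, 0, 1)]
  | 1, 0 => [(-1, 1, -1, 1, -2), (1, 1, 0, -1, 5), (1, 1, 0, 0, 5), (1, 1, 0, 1, 5), (-1, 1, 1, -1, -2), (-1, 1, 2, 0, 5), (1, 2, -1, -1, 6), (-1, 2, 1, -1, -1), (-1, 3, -5, 1, -10), (1, 3, -2, 1, -3), (1, 4, -3, 1, -4), (-1, 4, 5, 1, 10), (1, 5, -3, 0, 1), (-1, 5, 2, 0, 1), (1, 11, -6, 3, -11), (-1, 11, 5, 3, 10)]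
  | 1, 1 => [(1, 1, 2, 0, 5), (-1, 2, -1, -1, 6), (-1, 2, -1, 1, -1), (-1, 3, -2, 1, -3), (-1, 4, -3, 1, -4), (-1, 5, -3, 0, 1), (-1, 10, -5, 3, -10), (-1, 11, -6, 3, -11)]

end Pool.Agent.Helper4.S7
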